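import Pool.Agent.H.MP_aa1cf3_an.B

set_option linter.unusedSectionVars false

namespace Pool.Agent.H.MP_8173ef_an

open MeasureTheory Filter Topology Finset Pool.Agent.H.MP_aa1cf3_an
open scoped Classical ENNReal

structure Good (r : ℕ) (M : ℕ → ℕ → ℝ) : Prop where
  bes : ∀ a : ℕ → ℝ, ∑ l ∈ range (2 ^ r), (∑ k ∈ range (2 ^ r), M l k * a k) ^ 2 ≤
    (r + 1) * (∑ k ∈ range (2 ^ r), a k ^ 2 - (∑ k ∈ range (2 ^ r), a k) ^ 2 / 2 ^ r)
  row : ∀ l < 2 ^ r, ∑ k ∈ range (2 ^ r), |M l k| ≤ r
  col : ∀ k < 2 ^ r, ∑ l ∈ range (2 ^ r), |M l k| ≤ r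
  tau : ∑ l ∈ range (2 ^ r), ∑ k ∈ range (l + 1), M l k = 2 ^ r * r / 4

lemma var_nonneg (N : ℕ) (hN : 0 < N) (a : ℕ → ℝ) :
    0 ≤ ∑ k ∈ range N, a k ^ 2 - (∑ k ∈ range N, a k) ^ 2 / N := by
  have h := sq_sum_le_card_mul_sum_sq (s := range N) (f := a)
  rw [card_range] at h
  have : (0 : ℝ) < N := by exact_mod_cast hN
  rw [sub_nonneg, div_le_iff₀' this]
  exact h

lemma mat (r : ℕ) : ∃ M, Good r M := by
  induction r with
  | zero => exact ⟨fun _ _ => 0, by simp, by simp, by simp, by simp⟩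
  | succ r ih =>
    obtain ⟨M, h1, h2, h3, h4⟩ := ih
    have e : 2 ^ (r + 1) = 2 ^ r + 2 ^ r := by ring
    have e' : (2 : ℝ) ^ (r + 1) = 2 * ((2 ^ r : ℕ) : ℝ) := by push_cast; ring
    have e'' : (2 : ℝ) ^ r = ((2 ^ r : ℕ) : ℝ) := by push_cast; ring
    rw [e''] at h1 h4
    have hN : 0 < 2 ^ r := by positivity
    generalize 2 ^ r = N at *
    have hN' : (0 : ℝ) < N := by exact_mod_cast hN
    set c : ℝ := 1 / (2 * N) with hc
    have hc0 : 0 < c := by positivity
    have hcN : c * N = 1 / 2 := by rw [hc]; field_simp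
    let M' : ℕ → ℕ → ℝ := fun l k => (if l < N then if k < N then M l k else 0 else
      if k < N then 0 else M (l - N) (k - N)) + (if k < N then 1 else -1) * c
    have m11 : ∀ l ∈ range N, ∀ k ∈ range N, M' l k = M l k + c := fun l hl k hk => by
      simp [M', mem_range.1 hl, mem_range.1 hk]
    have m12 : ∀ l ∈ range N, ∀ k, M' l (N + k) = -c := fun l hl k => by
      simp [M', mem_range.1 hl]
    have m21 : ∀ l, ∀ k ∈ range N, M' (N + l) k = c := fun l k hk => by
      simp [M', mem_range.1 hk]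
    have m22 : ∀ l k, M' (N + l) (N + k) = M l k - c := fun l k => by
      simp [M', sub_eq_add_neg]
    have sc : ∑ _k ∈ range N, c = 1 / 2 := by simp [← hcN, mul_comm]
    refine ⟨M', fun a => ?_, fun l hl => ?_, fun k hk => ?_, ?_⟩
    · rw [e, e']
      simp only [sum_range_add]
      set S := ∑ k ∈ range N, a k
      set S' := ∑ k ∈ range N, a (N + k)
      have q : ∀ x d : ℝ, (x + d) ^ 2 ≤ (r + 2) / (r + 1) * x ^ 2 + (r + 2) * d ^ 2 := by
        intro x d
        have : (r + 2) / (r + 1) * x ^ 2 + (r + 2) * d ^ 2 - (x + d) ^ 2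
            = (x - (r + 1) * d) ^ 2 / (r + 1) := by field_simp; ring
        have h0 : 0 ≤ (x - (r + 1) * d) ^ 2 / (r + 1) := by positivity
        linarith
      have a1 : ∀ l ∈ range N, (∑ k ∈ range N, M' l k * a k +
          ∑ k ∈ range N, M' l (N + k) * a (N + k)) ^ 2 ≤
          (r + 2) / (r + 1) * (∑ k ∈ range N, M l k * a k) ^ 2 + (r + 2) * (c * (S - S')) ^ 2 := by
        intro l hl
        rw [sum_congr rfl fun k hk => by rw [m11 l hl k hk]]
        refine le_of_eq_of_le ?_ (q _ _)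
        simp only [m12 l hl, add_mul, sum_add_distrib, ← mul_sum]
        ring
      have a2 : ∀ l ∈ range N, (∑ k ∈ range N, M' (N + l) k * a k +
          ∑ k ∈ range N, M' (N + l) (N + k) * a (N + k)) ^ 2 ≤
          (r + 2) / (r + 1) * (∑ k ∈ range N, M l k * a (N + k)) ^ 2
            + (r + 2) * (c * (S - S')) ^ 2 := by
        intro l _
        rw [sum_congr rfl fun k hk => by rw [m21 l k hk]]
        refine le_of_eq_of_le ?_ (q _ _)
        simp only [m22, sub_mul, sum_sub_distrib, ← mul_sum]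
        ring
      refine (add_le_add (sum_le_sum a1) (sum_le_sum a2)).trans ?_
      simp only [sum_add_distrib, ← mul_sum, sum_const, card_range, nsmul_eq_mul]
      have b1 := h1 a
      have b2 := h1 fun k => a (N + k)
      have p : (0 : ℝ) ≤ (r + 2) / (r + 1) := by positivity
      have b3 := mul_le_mul_of_nonneg_left (add_le_add b1 b2) p
      refine le_of_le_of_eq (b := (r + 2) / (r + 1) * ((r + 1) * (∑ k ∈ range N, a k ^ 2
        - S ^ 2 / N) + (r + 1) * (∑ k ∈ range N, a (N + k) ^ 2 - S' ^ 2 / N))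
        + 2 * (N * ((r + 2) * (c * (S - S')) ^ 2))) (by linarith) ?_
      rw [hc]
      push_cast
      field_simp
      ring
    · rw [e] at hl ⊢
      rw [sum_range_add]
      push_cast
      rcases lt_or_ge l N with h | h
      · have := h2 l h
        have a1 : ∑ k ∈ range N, |M' l k| ≤ ∑ k ∈ range N, (|M l k| + c) :=
          sum_le_sum fun k hk => by
            rw [m11 l (mem_range.2 h) k hk]
            exact (abs_add_le _ _).trans (by rw [abs_of_pos hc0])
        simp only [m12 l (mem_range.2 h), abs_neg, abs_of_pos hc0]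
        rw [sum_add_distrib] at a1
        linarith
      · obtain ⟨l, rfl⟩ := Nat.exists_eq_add_of_le h
        have := h2 l (by omega)
        have a1 : ∑ k ∈ range N, |M' (N + l) (N + k)| ≤ ∑ k ∈ range N, (|M l k| + c) :=
          sum_le_sum fun k _ => by
            rw [m22]
            exact (abs_sub _ _).trans (by rw [abs_of_pos hc0])
        rw [sum_congr rfl fun k hk => by rw [m21 l k hk, abs_of_pos hc0]]
        rw [sum_add_distrib] at a1
        linarith
    · rw [e] at hk ⊢
      rw [sum_range_add]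
      push_cast
      rcases lt_or_ge k N with h | h
      · have := h3 k h
        have a1 : ∑ l ∈ range N, |M' l k| ≤ ∑ l ∈ range N, (|M l k| + c) :=
          sum_le_sum fun l hl => by
            rw [m11 l hl k (mem_range.2 h)]
            exact (abs_add_le _ _).trans (by rw [abs_of_pos hc0])
        simp only [m21 _ k (mem_range.2 h), abs_of_pos hc0]
        rw [sum_add_distrib] at a1
        linarith
      · obtain ⟨k, rfl⟩ := Nat.exists_eq_add_of_le h
        have := h3 k (by omega)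
        have a1 : ∑ l ∈ range N, |M' (N + l) (N + k)| ≤ ∑ l ∈ range N, (|M l k| + c) :=
          sum_le_sum fun l _ => by
            rw [m22]
            exact (abs_sub _ _).trans (by rw [abs_of_pos hc0])
        rw [sum_congr rfl fun l hl => by rw [m12 l hl k, abs_neg, abs_of_pos hc0]]
        rw [sum_add_distrib] at a1
        linarith
    · rw [e, e', sum_range_add, ← sum_add_distrib]
      have a1 : ∀ l ∈ range N, ∑ k ∈ range (l + 1), M' l k +
          ∑ k ∈ range (N + l + 1), M' (N + l) k = 2 * ∑ k ∈ range (l + 1), M l k + 1 / 2 := by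
        intro l hl
        rw [add_assoc, sum_range_add _ N, sum_congr rfl fun k hk => m21 l k hk, sc,
          sum_congr rfl fun k hk => m11 l hl k (mem_range.2 (by
            have := mem_range.1 hk; have := mem_range.1 hl; omega))]
        simp only [m22, sum_add_distrib, sum_sub_distrib]
        ring
      rw [sum_congr rfl a1, sum_add_distrib, ← mul_sum, h4]
      simp
      ring

lemma naimark {ι : Type} (s : Finset ι) (G : ι → ι → ℝ) (hG : ∀ α β, G α β = G β α)
    (h : ∀ a : ι → ℝ, ∑ α ∈ s, ∑ β ∈ s, a α * a β * G α β ≤ ∑ α ∈ s, a α ^ 2) :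
    ∃ W : ι → ι → ℝ, ∀ α ∈ s, ∀ β ∈ s,
      ∑ γ ∈ s, W γ α * W γ β = (if α = β then 1 else 0) - G α β := by
  let M : Matrix s s ℝ := fun α β => (if α = β then 1 else 0) - G α β
  have hM : M.PosSemidef := by
    refine .of_dotProduct_mulVec_nonneg ?_ fun x => ?_
    · ext α β
      simp [M, Matrix.conjTranspose_apply, hG β.1 α.1, eq_comm]
    · have := h fun α => if h : α ∈ s then x ⟨α, h⟩ else 0
      simp only [← sum_coe_sort s, coe_mem, dif_pos, Subtype.coe_eta] at this
      simp only [dotProduct, Matrix.mulVec, M, sub_mul, sum_sub_distrib, mul_sub, star_trivial,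
        ite_mul, one_mul, zero_mul, sum_ite_eq, mem_univ, if_true, mul_sum]
      rw [sub_nonneg]
      refine le_of_eq_of_le ?_ (this.trans_eq ?_)
      · exact sum_congr rfl fun α _ => sum_congr rfl fun β _ => by ring
      · exact sum_congr rfl fun α _ => by ring
  open scoped MatrixOrder in
  obtain ⟨X, hX⟩ := CStarAlgebra.nonneg_iff_eq_star_mul_self.mp hM.nonneg
  refine ⟨fun γ α => if h : γ ∈ s ∧ α ∈ s then X ⟨γ, h.1⟩ ⟨α, h.2⟩ else 0, fun α hα β hβ => ?_⟩
  have := congrFun (congrFun hX ⟨α, hα⟩) ⟨β, hβ⟩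
  simp only [M, Matrix.mul_apply, Matrix.star_apply, star_trivial, Subtype.mk.injEq] at this
  rw [this, ← sum_coe_sort s]
  simp [hα, hβ]

variable {μ : Measure Om} (h : Fair μ)

noncomputable def G (r : ℕ) (f : ℕ → ℝ) : V μ :=
  ∑ t ∈ K1.I (r + 1), f (t - K1.P (r + 1)) • H h t

lemma G_apply (r : ℕ) (f : ℕ → ℝ) (ω : Om) :
    (G h r f).1 ω = f (val r ω) * (√(2 ^ r) * sf (r + 1) ω) := by
  have := hf_sum (fun t => f (t - K1.P (r + 1))) (r + 1) ω Subset.rfl
  rw [if_pos (idx_mem _ _)] at this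
  simp only [Nat.add_sub_cancel, Nat.add_sub_cancel_left] at this
  simpa [G, H, H.MP_aa1cf3_an.mk, K1] using this

lemma B_G (r r' : ℕ) (f g : ℕ → ℝ) : B μ (G h r f) (G h r' g) =
    if r = r' then ∑ l ∈ range (2 ^ r), f l * g l else 0 := by
  simp only [G, map_sum, map_smul, LinearMap.sum_apply, LinearMap.smul_apply, smul_eq_mul,
    ON_H h _ _, mul_ite, mul_one, mul_zero, sum_ite_eq']
  split_ifs with e
  · subst e
    rw [sum_congr rfl fun t ht => by rw [if_pos ht]]
    simp only [Blk.I, Blk.P_succ, sum_Ico_eq_sum_range, Nat.add_sub_cancel_left]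
    simp [K1, mul_comm]
  · refine sum_eq_zero fun t ht => ?_
    rw [if_neg fun h' => e (by
      have := (K1.mem_I.1 h').symm.trans (K1.mem_I.1 ht); omega)]

lemma ae_zero {g : ℕ → V μ} (hs : Summable fun b => B μ (g b) (g b)) :
    ∀ᵐ ω ∂μ, Tendsto (fun b => (g b).1 ω) atTop (𝓝 0) := by
  have hi : ∀ b, Integrable (fun ω => (g b).1 ω * (g b).1 ω) μ := fun b =>
    MemLp.integrable_mul (g b).2 (g b).2
  have hs' : Summable fun b => ∫ ω, ‖(g b).1 ω * (g b).1 ω‖ ∂μ := by
    refine hs.congr fun b => ?_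
    simp only [B_apply, Real.norm_of_nonneg (mul_self_nonneg _)]
  have h2 : ∫⁻ ω, ∑' b, ‖(g b).1 ω * (g b).1 ω‖ₑ ∂μ ≠ ⊤ := by
    rw [lintegral_tsum fun b => (hi b).1.enorm]
    simp only [← ofReal_integral_norm_eq_lintegral_enorm (hi _)]
    rw [← ENNReal.ofReal_tsum_of_nonneg (fun b => integral_nonneg fun _ => norm_nonneg _) hs']
    exact ENNReal.ofReal_ne_top
  filter_upwards [ae_lt_top' (AEMeasurable.tsum fun b => (hi b).1.enorm) h2] with ω hω
  have h5 := (tsum_enorm_ne_top_iff_summable_norm.1 hω.ne).of_norm.tendsto_atTop_zero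
  have h6 : Tendsto (fun b => √((g b).1 ω * (g b).1 ω)) atTop (𝓝 0) := by
    simpa using h5.sqrt
  exact squeeze_zero_norm (fun b => by rw [Real.sqrt_mul_self_eq_abs, Real.norm_eq_abs]) h6

include h in
lemma val_tendsto : ∀ᵐ ω ∂μ, Tendsto (fun n => val n ω) atTop atTop := by
  have h0 : μ {ω | ∀ n, val n ω = 0} = 0 := by
    refine le_antisymm (ge_of_tendsto' (ENNReal.tendsto_pow_atTop_nhds_zero_of_lt_one
      (r := 2⁻¹) (by simp)) fun n => ?_) zero_le
    obtain ⟨b, hb⟩ := val_surj n 0 (by positivity)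
    rw [← h.cyl n b]
    exact measure_mono fun ω hω => (val_eq_iff _ _ _).1 ((hω n).trans hb.symm)
  filter_upwards [measure_eq_zero_iff_ae_notMem.1 h0] with ω hω
  simp only [not_forall] at hω
  obtain ⟨M, hM⟩ := hω
  have : ∀ n, n + 1 ≤ val (M + n) ω := fun n => by
    induction n with
    | zero => simp only [Nat.add_zero]; omega
    | succ n ih => rw [← add_assoc]; simp only [H.MP_aa1cf3_an.val]; omega
  refine tendsto_atTop_atTop.2 fun b => ⟨M + b, fun n hn => ?_⟩
  obtain ⟨n, rfl⟩ := Nat.exists_eq_add_of_le (le_trans (Nat.le_add_right _ _) hn)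
  have := this n
  omega

end Pool.Agent.H.MP_8173ef_an
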