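import Pool.Agent.H.MP_8173ef_an.A

set_option linter.unusedSectionVars false

namespace Pool.Agent.H.MP_8173ef_an

open MeasureTheory Filter Topology Finset Pool.Agent.H.MP_aa1cf3_an
open scoped Classical ENNReal

def st (i : ℕ) : ℕ := Nat.log 2 (i + 1)
def rr (j : ℕ) : ℕ := 2 * 4 ^ 2 ^ (j + 1)
def NN (j : ℕ) : ℕ := 2 ^ rr j
def I (j : ℕ) : Finset ℕ := Ico (2 ^ j - 1) (2 ^ (j + 1) - 1)

lemma mem_I {i j : ℕ} : i ∈ I j ↔ st i = j := by
  have := Nat.one_le_two_pow (n := j)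
  have := Nat.one_le_two_pow (n := j + 1)
  rw [st, Nat.log_eq_iff (by omega), I, mem_Ico]
  omega

lemma rr_mono : StrictMono rr := strictMono_nat_of_lt_succ fun j => by
  unfold rr
  gcongr <;> omega

lemma rr_pos (j : ℕ) : (1 : ℝ) ≤ rr j := by
  have : 0 < rr j := by unfold rr; positivity
  exact_mod_cast this

lemma sum_I (j : ℕ) : 2 * ∑ i ∈ I j, ((2 : ℝ) ^ i) ^ 2 ≤ rr j := by
  have h : ∀ n, ∑ i ∈ range n, ((2 : ℝ) ^ i) ^ 2 ≤ 4 ^ n := fun n => by
    induction n with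
    | zero => simp
    | succ n ih =>
      rw [sum_range_succ, ← pow_mul, mul_comm n, pow_mul, pow_succ 4]
      have : (0 : ℝ) < 4 ^ n := by positivity
      norm_num at ih ⊢
      linarith
  have : ∑ i ∈ I j, ((2 : ℝ) ^ i) ^ 2 ≤ ∑ i ∈ range (2 ^ (j + 1)), ((2 : ℝ) ^ i) ^ 2 :=
    sum_le_sum_of_subset_of_nonneg (fun i hi => mem_range.2 (by
      have := (mem_Ico.1 hi).2; omega)) fun _ _ _ => by positivity
  have := h (2 ^ (j + 1))
  simp only [rr]
  push_cast
  linarith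

noncomputable def Mx (j : ℕ) : ℕ → ℕ → ℝ := (mat (rr j)).choose

lemma good (j : ℕ) : Good (rr j) (Mx j) := (mat (rr j)).choose_spec

noncomputable def cf (α : ℕ × ℕ) (l : ℕ) : ℝ :=
  if α.2 < NN (st α.1) then 2 ^ α.1 / rr (st α.1) * Mx (st α.1) l α.2 else 0

def T (α : ℕ × ℕ) : Finset (ℕ × ℕ) :=
  if α.2 < NN (st α.1) then I (st α.1) ×ˢ range (NN (st α.1)) else {α}

lemma mem_T {α β : ℕ × ℕ} : β ∈ T α ↔
    β = α ∨ (α.2 < NN (st α.1) ∧ st β.1 = st α.1 ∧ β.2 < NN (st α.1)) := by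
  unfold T
  split_ifs with h
  · simp only [mem_product, mem_I, mem_range, h, true_and]
    exact ⟨Or.inr, by rintro (rfl | h'); exacts [⟨rfl, h⟩, h']⟩
  · simp [h]

lemma T_eq {α β : ℕ × ℕ} (h : β ∈ T α) : T β = T α := by
  rcases mem_T.1 h with rfl | ⟨h1, h2, h3⟩
  · rfl
  · simp [T, h1, h2, h3]

lemma T_self (α : ℕ × ℕ) : α ∈ T α := mem_T.2 (Or.inl rfl)

variable {μ : Measure Om} (h : Fair μ)

noncomputable def v (α : ℕ × ℕ) : V μ := G h (rr (st α.1)) (cf α)

noncomputable def e (α : ℕ × ℕ) : V μ :=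
  G h (2 * Nat.pair α.1 α.2 + 1) fun l => if l = 0 then 1 else 0

lemma B_ee (α β : ℕ × ℕ) : B μ (e h α) (e h β) = if α = β then 1 else 0 := by
  simp only [e, B_G, add_left_inj, mul_eq_mul_left_iff, Nat.pair_eq_pair, Prod.ext_iff]
  simp

lemma B_ve (α β : ℕ × ℕ) : B μ (v h α) (e h β) = 0 := by
  rw [v, e, B_G, if_neg (by unfold rr; omega)]

lemma B_vv {α β : ℕ × ℕ} (hβ : β ∉ T α) : B μ (v h α) (v h β) = 0 := by
  rw [v, v, B_G]
  split_ifs with e
  · have e' := rr_mono.injective e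
    rw [mem_T] at hβ
    refine sum_eq_zero fun l _ => ?_
    unfold cf
    split_ifs with h1 h2
    · exact (hβ (Or.inr ⟨h1, e'.symm, e' ▸ h2⟩)).elim
    all_goals simp
  · rfl

lemma bes (α : ℕ × ℕ) (a : ℕ × ℕ → ℝ) : ∑ β ∈ T α, ∑ γ ∈ T α, a β * a γ * B μ (v h β) (v h γ)
    ≤ ∑ β ∈ T α, a β ^ 2 := by
  by_cases c : α.2 < NN (st α.1)
  swap
  · simp [T, c, v, B_G, cf, sq_nonneg]
  set j := st α.1
  have hr := rr_pos j
  have h1 : ∀ β ∈ T α, v h β = G h (rr j) fun l => 2 ^ β.1 / rr j * Mx j l β.2 := by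
    intro β hβ
    rcases mem_T.1 hβ with rfl | ⟨-, h2, h3⟩
    · simp only [v]; congr 1; ext l; simp [cf, c, j]
    · simp only [v, h2]; congr 1; ext l; simp [cf, h2, h3, j]
  have hT : T α = I j ×ˢ range (2 ^ rr j) := if_pos c
  calc _ = ∑ l ∈ range (2 ^ rr j), (∑ β ∈ T α, a β * (2 ^ β.1 / rr j * Mx j l β.2)) ^ 2 := by
        simp only [sq, sum_mul_sum]
        rw [sum_comm (s := range _)]
        refine sum_congr rfl fun β hβ => ?_
        rw [sum_comm (s := range _)]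
        refine sum_congr rfl fun γ hγ => ?_
        rw [h1 β hβ, h1 γ hγ, B_G, if_pos rfl, mul_sum]
        exact sum_congr rfl fun l _ => by ring
    _ = ∑ l ∈ range (2 ^ rr j), (∑ k ∈ range (2 ^ rr j),
          Mx j l k * ((∑ i ∈ I j, 2 ^ i * a (i, k)) / rr j)) ^ 2 := by
        refine sum_congr rfl fun l _ => ?_
        rw [hT, sum_product_right]
        congr 1
        refine sum_congr rfl fun k _ => ?_
        rw [sum_div, mul_sum]
        exact sum_congr rfl fun i _ => by ring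
    _ ≤ (rr j + 1) * ∑ k ∈ range (2 ^ rr j), ((∑ i ∈ I j, 2 ^ i * a (i, k)) / rr j) ^ 2 :=
        ((good j).bes _).trans (mul_le_mul_of_nonneg_left (sub_le_self _ (by positivity))
          (by positivity))
    _ ≤ _ := by
        rw [hT, sum_product_right, mul_sum]
        refine sum_le_sum fun k _ => ?_
        have a1 := sum_mul_sq_le_sq_mul_sq (I j) (fun i => (2 : ℝ) ^ i) fun i => a (i, k)
        have a2 := sum_I j
        have a3 : 0 ≤ ∑ i ∈ I j, a (i, k) ^ 2 := by positivity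
        rw [div_pow, ← mul_div_assoc, div_le_iff₀ (by positivity)]
        have a4 := mul_le_mul_of_nonneg_right a2 a3
        calc _ ≤ (2 * rr j : ℝ) * ((∑ i ∈ I j, ((2 : ℝ) ^ i) ^ 2) * ∑ i ∈ I j, a (i, k) ^ 2) :=
              mul_le_mul (by linarith) a1 (by positivity) (by positivity)
          _ ≤ _ := by nlinarith

lemma exW : ∃ W : Finset (ℕ × ℕ) → ℕ × ℕ → ℕ × ℕ → ℝ, ∀ δ, ∀ α ∈ T δ, ∀ β ∈ T δ,
    ∑ γ ∈ T δ, W (T δ) γ α * W (T δ) γ β = (if α = β then 1 else 0) - B μ (v h α) (v h β) := by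
  have : ∀ s : Finset (ℕ × ℕ), ∃ W : ℕ × ℕ → ℕ × ℕ → ℝ, (∃ δ, s = T δ) → ∀ α ∈ s, ∀ β ∈ s,
      ∑ γ ∈ s, W γ α * W γ β = (if α = β then 1 else 0) - B μ (v h α) (v h β) := by
    intro s
    by_cases c : ∃ δ, s = T δ
    · obtain ⟨δ, rfl⟩ := c
      obtain ⟨W, hW⟩ := naimark (T δ) (fun α β => B μ (v h α) (v h β)) (fun _ _ => B_symm _ _)
        (bes h δ)
      exact ⟨W, fun _ α hα β hβ => by convert hW α hα β hβ⟩
    · exact ⟨0, fun h => (c h).elim⟩
  choose W hW using this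
  exact ⟨W, fun δ => hW _ ⟨δ, rfl⟩⟩

noncomputable def w (α : ℕ × ℕ) : V μ := ∑ γ ∈ T α, (exW h).choose (T α) γ α • e h γ

noncomputable def ph (α : ℕ × ℕ) : V μ := v h α + w h α

lemma ON_ph : ON (ph h) := by
  intro α β
  have h1 : ∀ α β, B μ (v h α) (w h β) = 0 := fun α β => by simp [w, B_ve]
  simp only [ph, map_add, LinearMap.add_apply, h1, B_symm (w h α) (v h β), zero_add, add_zero]
  simp only [w, map_sum, map_smul, LinearMap.sum_apply, LinearMap.smul_apply, smul_eq_mul, B_ee,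
    mul_ite, mul_one, mul_zero, sum_ite_eq']
  by_cases c : β ∈ T α
  · have := (exW h).choose_spec α α (T_self α) β c
    rw [T_eq c, sum_congr rfl fun γ hγ => by rw [if_pos hγ, mul_comm], this]
    simp
  · rw [B_vv h c, if_neg (by rintro rfl; exact c (T_self _)), zero_add]
    refine sum_eq_zero fun γ hγ => if_neg fun h' => c ?_
    rw [← T_eq h', T_eq hγ]
    exact T_self _

lemma w_fin {ω : Om} (hω : Tendsto (fun n => val n ω) atTop atTop) :
    ∃ F : Finset (ℕ × ℕ), ∀ α ∉ F, (w h α).1 ω = 0 := by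
  obtain ⟨n, hn⟩ := tendsto_atTop_atTop.1 hω 1
  refine ⟨(range n ×ˢ range n).biUnion T, fun α hα => ?_⟩
  simp only [w, AddSubmonoidClass.coe_finsetSum, Finset.sum_apply, Submodule.coe_smul,
    Pi.smul_apply, smul_eq_mul]
  refine sum_eq_zero fun γ hγ => ?_
  have : n ≤ 2 * Nat.pair γ.1 γ.2 + 1 := by
    by_contra c
    have := Nat.left_le_pair γ.1 γ.2
    have := Nat.right_le_pair γ.1 γ.2
    exact hα (mem_biUnion.2 ⟨γ, by simp only [mem_product, mem_range]; omega,
      T_eq hγ ▸ T_self α⟩)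
  rw [e, G_apply, if_neg (by have := hn _ this; omega)]
  simp

lemma grow (b : ℕ → ℕ → ℝ) (hb : Summable fun p : ℕ × ℕ => b p.1 p.2 ^ 2) :
    ∀ᵐ ω ∂μ, ∃ C : ℝ, ∀ m n, |∑ i ∈ range (m + 1), ∑ k ∈ range (n + 1),
      b i k * (ph h (i, k)).1 ω| ≤ C * 2 ^ m := by
  let g : ℕ → V μ := fun i => G h (rr (st i)) fun l =>
    (∑ k ∈ range (2 ^ rr (st i)), |Mx (st i) l k| * |b i k|) / rr (st i)
  have hg : Summable fun i => B μ (g i) (g i) := by
    refine hb.prod.of_nonneg_of_le (fun i => integral_nonneg fun _ => mul_self_nonneg _) fun i => ?_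
    refine le_trans ?_ ((hb.prod_factor i).sum_le_tsum (range (2 ^ rr (st i)))
      fun _ _ => sq_nonneg _)
    simp only [g, B_G, if_true]
    generalize st i = j
    have hr := rr_pos j
    calc _ ≤ ∑ l ∈ range (2 ^ rr j), (∑ k ∈ range (2 ^ rr j), |Mx j l k| * b i k ^ 2) / rr j := by
          refine sum_le_sum fun l hl => ?_
          have a1 := sum_sq_le_sum_mul_sum_of_sq_le_mul (range (2 ^ rr j))
            (r := fun k => |Mx j l k| * |b i k|) (f := fun k => |Mx j l k|)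
            (g := fun k => |Mx j l k| * b i k ^ 2) (fun _ _ => by positivity)
            (fun _ _ => by positivity) fun k _ => le_of_eq (by rw [mul_pow, sq_abs (b i k)]; ring)
          have a2 := mul_le_mul_of_nonneg_right ((good j).row l (mem_range.1 hl))
            (show 0 ≤ ∑ k ∈ range (2 ^ rr j), |Mx j l k| * b i k ^ 2 by positivity)
          rw [div_mul_div_comm, div_le_div_iff₀ (by positivity) (by positivity), ← sq]
          nlinarith
      _ ≤ _ := by
          rw [← sum_div, sum_comm, div_le_iff₀' (by positivity), mul_sum]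
          refine sum_le_sum fun k hk => ?_
          rw [← sum_mul]
          exact mul_le_mul_of_nonneg_right ((good j).col k (mem_range.1 hk)) (sq_nonneg _)
  filter_upwards [ae_zero hg, val_tendsto h] with ω h1 h2
  obtain ⟨F, hF⟩ := w_fin h h2
  obtain ⟨C, hC⟩ := h1.abs.bddAbove_range
  have hC' : ∀ i, |(g i).1 ω| ≤ C := fun i => hC ⟨i, rfl⟩
  have C0 : 0 ≤ C := (abs_nonneg _).trans (hC' 0)
  have a1 : ∀ i n, ∑ k ∈ range n, |b i k * (v h (i, k)).1 ω| ≤ C * 2 ^ i := by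
    intro i n
    refine le_trans ?_ (mul_le_mul_of_nonneg_right (hC' i) (by positivity))
    have hr := rr_pos (st i)
    simp only [g, v, G_apply, cf, abs_mul, NN]
    rw [abs_of_nonneg (a := _ / _) (by positivity), sum_div, sum_mul, sum_mul]
    refine le_trans (le_of_eq (sum_subset (s₁ := range n ∩ range (2 ^ rr (st i)))
      inter_subset_left fun k h1 h2 => ?_).symm) (le_trans (le_of_eq (sum_congr rfl fun k hk => ?_))
      (sum_le_sum_of_subset_of_nonneg inter_subset_right fun _ _ _ => by positivity))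
    · rw [if_neg fun h => h2 (mem_inter.2 ⟨h1, mem_range.2 h⟩)]
      simp
    · rw [if_pos (mem_range.1 (mem_inter.1 hk).2), abs_mul,
        abs_of_nonneg (a := _ / _) (by positivity)]
      ring
  refine ⟨2 * C + ∑ α ∈ F, |b α.1 α.2 * (w h α).1 ω|, fun m n => ?_⟩
  have a2 : ∑ i ∈ range (m + 1), ∑ k ∈ range (n + 1), |b i k * (w h (i, k)).1 ω| ≤
      ∑ α ∈ F, |b α.1 α.2 * (w h α).1 ω| := by
    rw [← sum_product' (f := fun i k => |b i k * (w h (i, k)).1 ω|)]
    refine le_trans (le_of_eq ?_) (sum_le_sum_of_subset_of_nonneg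
      (s := (range (m + 1) ×ˢ range (n + 1)) ∩ F) inter_subset_right fun _ _ _ => abs_nonneg _)
    refine (sum_subset inter_subset_left fun α h1 h2 => ?_).symm
    rw [hF α fun h => h2 (mem_inter.2 ⟨h1, h⟩)]
    simp
  have a3 : ∑ i ∈ range (m + 1), (2 : ℝ) ^ i ≤ 2 * 2 ^ m := by
    rw [geom_sum_eq (by norm_num), pow_succ]; linarith
  have a4 : (1 : ℝ) ≤ 2 ^ m := one_le_pow₀ one_le_two
  have a5 : 0 ≤ ∑ α ∈ F, |b α.1 α.2 * (w h α).1 ω| := by positivity
  calc _ ≤ ∑ i ∈ range (m + 1), (∑ k ∈ range (n + 1), |b i k * (v h (i, k)).1 ω| +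
        ∑ k ∈ range (n + 1), |b i k * (w h (i, k)).1 ω|) := by
        refine (abs_sum_le_sum_abs _ _).trans (sum_le_sum fun i _ => ?_)
        rw [← sum_add_distrib]
        refine (abs_sum_le_sum_abs _ _).trans (sum_le_sum fun k _ => ?_)
        simp only [ph, Submodule.coe_add, Pi.add_apply, mul_add]
        exact abs_add_le _ _
    _ ≤ C * ∑ i ∈ range (m + 1), (2 : ℝ) ^ i + ∑ α ∈ F, |b α.1 α.2 * (w h α).1 ω| := by
        rw [sum_add_distrib, mul_sum]
        exact add_le_add (sum_le_sum fun i _ => a1 i _) a2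
    _ ≤ _ := by nlinarith [mul_le_mul_of_nonneg_left a3 C0]

noncomputable def aa (i k : ℕ) : ℝ :=
  if k < NN (st i) then (2 ^ i * 2 ^ st i * √(2 ^ rr (st i)))⁻¹ else 0

lemma G_meas (r : ℕ) (f : ℕ → ℝ) : Measurable (G h r f).1 := by
  rw [funext (G_apply h r f)]
  exact ((measurable_of_countable f).comp (val_meas r)).mul (measurable_const.mul (sf_meas _))

lemma div {Y : Type} [MeasurableSpace Y] {ν : Measure Y} {Φ : Y → Om}
    (mp : MeasurePreserving Φ ν μ) : ¬ ∀ᵐ y ∂ν, ∃ s : ℝ, ∀ ε > 0, ∃ K, ∀ m n, K ≤ m → K ≤ n →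
    |∑ i ∈ range (m + 1), ∑ k ∈ range (n + 1), aa i k * (ph h (i, k)).1 (Φ y) - s| < ε := by
  intro hc
  have := h.prob
  let X : ℕ → V μ := fun j => G h (rr j) fun l =>
    (∑ k ∈ range (l + 1), Mx j l k) / (rr j * √(2 ^ rr j))
  have s0 : ∀ j, 0 < √((2 : ℝ) ^ rr j) := fun j => by positivity
  have x1 : ∀ j ω, |(X j).1 ω| ≤ 1 := by
    intro j ω
    have hr := rr_pos j
    have := s0 j
    have a1 := val_lt (rr j) ω
    have a2 : |∑ k ∈ range (val (rr j) ω + 1), Mx j (val (rr j) ω) k| ≤ rr j :=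
      ((abs_sum_le_sum_abs _ _).trans (sum_le_sum_of_subset_of_nonneg (range_subset_range.2 a1)
        fun _ _ _ => abs_nonneg _)).trans ((good j).row _ a1)
    simp only [X, G_apply, abs_mul, abs_div, sf_abs, abs_of_pos this, Nat.abs_cast, mul_one]
    rw [div_mul_eq_mul_div, div_le_one (by positivity)]
    exact mul_le_mul_of_nonneg_right a2 this.le
  have x2 : ∀ j, 1 / 16 ≤ B μ (X j) (X j) := by
    intro j
    have hr := rr_pos j
    have a1 := sq_sum_le_card_mul_sum_sq (s := range (2 ^ rr j))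
      (f := fun l => ∑ k ∈ range (l + 1), Mx j l k)
    rw [(good j).tau, card_range] at a1
    simp only [X, B_G, if_true, ← sq, div_pow, mul_pow]
    rw [← sum_div, Real.sq_sqrt (by positivity), le_div_iff₀ (by positivity)]
    push_cast at a1
    have p : (0 : ℝ) < 2 ^ rr j := by positivity
    exact le_of_mul_le_mul_left (by linarith) p
  have x3 : ∀ᵐ ω ∂μ, Tendsto (fun j => (X j).1 ω * (X j).1 ω) atTop (𝓝 0) := by
    refine (congrArg ae mp.map_eq ▸ ae_map_iff mp.aemeasurable (measurableSet_tendsto (𝓝 0)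
      fun j => (G_meas h _ _).mul (G_meas h _ _))).2 ?_
    filter_upwards [hc, mp.quasiMeasurePreserving.ae (val_tendsto h)] with y ⟨s, hs⟩ h2
    generalize Φ y = ω at *
    obtain ⟨F, hF⟩ := w_fin h h2
    suffices Tendsto (fun j => (X j).1 ω) atTop (𝓝 0) by simpa using this.mul this
    refine Metric.tendsto_atTop.2 fun ε hε => ?_
    obtain ⟨K, hK⟩ := hs (ε / 2) (by positivity)
    obtain ⟨j0, hj0⟩ := tendsto_atTop_atTop.1 (h2.comp rr_mono.tendsto_atTop) K
    refine ⟨j0 + K + F.sup Prod.fst + 2, fun j hj => ?_⟩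
    have p1 := Nat.lt_two_pow_self (n := j)
    have p2 : 2 ^ (j + 1) = 2 * 2 ^ j := by ring
    have q1 := hK (2 ^ (j + 1) - 2) _ (by omega) (hj0 j (by omega))
    have q2 := hK (2 ^ j - 2) _ (by omega) (hj0 j (by omega))
    rw [show 2 ^ (j + 1) - 2 + 1 = 2 ^ (j + 1) - 1 by omega] at q1
    rw [show 2 ^ j - 2 + 1 = 2 ^ j - 1 by omega] at q2
    have q3 := sum_Ico_eq_sub (fun i => ∑ k ∈ range (val (rr j) ω + 1),
      aa i k * (ph h (i, k)).1 ω) (show 2 ^ j - 1 ≤ 2 ^ (j + 1) - 1 by omega)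
    have q4 : ∀ i ∈ Ico (2 ^ j - 1) (2 ^ (j + 1) - 1), ∑ k ∈ range (val (rr j) ω + 1),
        aa i k * (ph h (i, k)).1 ω = (X j).1 ω / 2 ^ j := by
      intro i hi
      have e1 : st i = j := mem_I.1 hi
      have hr := rr_pos j
      have := s0 j
      simp only [X, G_apply, sum_div, sum_mul]
      refine sum_congr rfl fun k hk => ?_
      have k1 : k < NN j := lt_of_lt_of_le (mem_range.1 hk) (val_lt _ _)
      have k2 : (w h (i, k)).1 ω = 0 := hF _ fun h' => by
        have := le_sup (f := Prod.fst) h'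
        have := (mem_Ico.1 hi).1
        simp only at *
        omega
      simp only [ph, Submodule.coe_add, Pi.add_apply, k2, v, G_apply, aa, cf, e1, if_pos k1]
      field_simp
      ring
    rw [sum_congr rfl q4, sum_const, Nat.card_Ico, show 2 ^ (j + 1) - 1 - (2 ^ j - 1) = 2 ^ j by
      omega, nsmul_eq_mul, Nat.cast_pow, Nat.cast_two, mul_div_cancel₀ _ (by positivity)] at q3
    simp only [Function.comp] at q1 q2
    rw [Real.dist_eq, sub_zero, q3, abs_lt] 
    rw [abs_lt] at q1 q2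
    constructor <;> linarith [q1.1, q1.2, q2.1, q2.2]
  have x4 := tendsto_integral_of_dominated_convergence (μ := μ) (fun _ => (1 : ℝ))
    (F := fun j ω => (X j).1 ω * (X j).1 ω) (f := fun _ => 0)
    (fun j => (MemLp.integrable_mul (X j).2 (X j).2).1) (integrable_const _)
    (fun j => Eventually.of_forall fun ω => by
      rw [Real.norm_eq_abs, abs_mul]
      exact mul_le_one₀ (x1 j ω) (abs_nonneg _) (x1 j ω)) x3
  have := ge_of_tendsto' x4 x2
  norm_num at this

end Pool.Agent.H.MP_8173ef_an
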